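import Pool.Agent.FRE.Stmts
import Pool.Agent.PLG.StmtsB

set_option autoImplicit false

namespace Pool.Agent.FRE.H61

open scoped Pointwise

theorem bsg (h : Pool.Agent.PLG.BsgStmt) : BsgStmt := by
  intro K
  classical
  by_cases hK : K ≤ 0
  · refine ⟨1, one_pos, fun P hP h2 => ?_⟩
    exfalso
    have h3 : (0 : ℝ) < (P.card : ℝ) ^ 3 := by
      have : (0 : ℝ) < P.card := by exact_mod_cast hP.card_pos
      positivity
    have h4 : K * (eng P : ℝ) ≤ 0 := mul_nonpos_of_nonpos_of_nonneg hK (Nat.cast_nonneg _)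
    linarith
  push Not at hK
  set L : ℝ := max K 1 with hL
  have hL1 : 1 ≤ L := le_max_right _ _
  refine ⟨8 * L + 2 ^ 48 * L ^ 20, by positivity, fun P hP h2 => ?_⟩
  have h3 : (P.card : ℝ) ^ 3 ≤ L * Finset.addEnergy P P := by
    refine h2.trans ?_
    have he : (eng P : ℝ) ≤ (Finset.addEnergy P P : ℝ) := by
      have : eng P ≤ Finset.addEnergy P P := by
        unfold eng Finset.addEnergy
        refine Finset.card_le_card_of_injOn
          (fun q => ((q.1.1, q.2.1), (q.1.2, q.2.2))) ?_ ?_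
        · rintro ⟨⟨a, b⟩, ⟨c, e⟩⟩ hq
          simp only [Finset.coe_filter, Finset.mem_product, Set.mem_ofPred_eq] at hq ⊢
          exact ⟨⟨⟨hq.1.1.1, hq.1.2.1⟩, ⟨hq.1.1.2, hq.1.2.2⟩⟩, hq.2⟩
        · rintro ⟨⟨a, b⟩, ⟨c, e⟩⟩ _ ⟨⟨a', b'⟩, ⟨c', e'⟩⟩ _ hq
          simp only [Prod.mk.injEq] at hq ⊢
          exact ⟨⟨hq.1.1, hq.2.1⟩, ⟨hq.1.2, hq.2.2⟩⟩
      exact_mod_cast this
    calc K * (eng P : ℝ) ≤ L * (eng P : ℝ) :=
          mul_le_mul_of_nonneg_right (le_max_left _ _) (Nat.cast_nonneg _)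
      _ ≤ L * (Finset.addEnergy P P : ℝ) :=
          mul_le_mul_of_nonneg_left he (by linarith)
  obtain ⟨P', hP', h4, h5⟩ := h ℂ P L hP hL1 h3
  have hc : (0 : ℝ) ≤ (P'.card : ℝ) := Nat.cast_nonneg _
  have hL0 : (0 : ℝ) ≤ L := by linarith
  refine ⟨P', hP', h4.trans ?_, ?_⟩
  · refine mul_le_mul_of_nonneg_right ?_ hc
    have : (0 : ℝ) ≤ 2 ^ 48 * L ^ 20 := by positivity
    linarith
  · have h6 : sms P' = (P' + P').card := by
      unfold sms
      congr 1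
    rw [h6]
    refine h5.trans (mul_le_mul_of_nonneg_right ?_ hc)
    linarith

end Pool.Agent.FRE.H61
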