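import Pool.Agent.FRE.Stmts
import Pool.Agent.Helper67_PLG.Conv

set_option autoImplicit false

namespace Pool.Agent.FRE.H61

open Pool.Agent.PLG.H67 (Pl iso cp mem_cp card_cp dset finite_dset line_of)

/-- the quadruples with `a + b = c + d` -/
def qset (P : Finset Pl) : Set (Pl × Pl × Pl × Pl) :=
  {q | q.1 ∈ P ∧ q.2.1 ∈ P ∧ q.2.2.1 ∈ P ∧ q.2.2.2 ∈ P ∧ q.1 + q.2.1 = q.2.2.1 + q.2.2.2}

/-- the sums of two elements -/
def sset (P : Finset Pl) : Set Pl := {s | ∃ p ∈ P, ∃ q ∈ P, s = p + q}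

theorem qset_le (P : Finset Pl) : (qset P).ncard ≤ eng (cp P) := by
  classical
  have h1 : qset P = (((cp P ×ˢ cp P) ×ˢ (cp P ×ˢ cp P)).filter
      fun q => q.1.1 + q.1.2 = q.2.1 + q.2.2).image
        (fun q => (iso q.1.1, iso q.1.2, iso q.2.1, iso q.2.2)) := by
    ext ⟨a, b, c, d⟩
    simp only [qset, Set.mem_ofPred_eq, Finset.coe_image, Set.mem_image, Finset.mem_coe,
      Finset.mem_filter, Finset.mem_product, mem_cp, Prod.mk.injEq]
    constructor
    · rintro ⟨ha, hb, hc, hd, he⟩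
      refine ⟨((iso.symm a, iso.symm b), (iso.symm c, iso.symm d)), ?_, ?_⟩
      · simp only [iso.apply_symm_apply]
        refine ⟨⟨⟨ha, hb⟩, hc, hd⟩, ?_⟩
        rw [← map_add, ← map_add, he]
      · simp only [iso.apply_symm_apply, and_self]
    · rintro ⟨⟨⟨x, y⟩, ⟨z, w⟩⟩, ⟨⟨⟨hx, hy⟩, hz, hw⟩, he⟩, rfl, rfl, rfl, rfl⟩
      refine ⟨hx, hy, hz, hw, ?_⟩
      simp only at he
      rw [← map_add, ← map_add, he]
  rw [h1, Set.ncard_coe_finset]
  unfold eng
  exact Finset.card_image_le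

theorem sms_le (P : Finset Pl) : sms (cp P) ≤ (sset P).ncard := by
  classical
  have hf : (sset P).Finite := by
    refine ((P ×ˢ P).image fun p => p.1 + p.2).finite_toSet.subset ?_
    rintro s ⟨p, hp, q, hq, rfl⟩
    exact Finset.mem_coe.2 (Finset.mem_image.2 ⟨(p, q), Finset.mem_product.2 ⟨hp, hq⟩, rfl⟩)
  have h1 : ((((cp P ×ˢ cp P).image fun p => p.1 + p.2).image iso : Finset Pl) : Set Pl) ⊆
      sset P := by
    intro s hs
    obtain ⟨z, hz, rfl⟩ := Finset.mem_image.1 (Finset.mem_coe.1 hs)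
    obtain ⟨⟨a, b⟩, hab, rfl⟩ := Finset.mem_image.1 hz
    rw [Finset.mem_product] at hab
    exact ⟨iso a, mem_cp.1 hab.1, iso b, mem_cp.1 hab.2, map_add iso a b⟩
  have h2 := Set.ncard_le_ncard h1 hf
  rw [Set.ncard_coe_finset, Finset.card_image_of_injective _ iso.injective] at h2
  unfold sms
  exact h2

theorem nd_cp (P : Finset Pl) : nd (cp P) ≤ (dset P).ncard := by
  classical
  have h1 : ((((cp P).offDiag.image fun p => dist p.1 p.2) : Finset ℝ) : Set ℝ) ⊆ dset P := by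
    intro r hr
    obtain ⟨⟨a, b⟩, hab, rfl⟩ := Finset.mem_image.1 (Finset.mem_coe.1 hr)
    rw [Finset.mem_offDiag] at hab
    exact ⟨iso a, mem_cp.1 hab.1, iso b, mem_cp.1 hab.2.1,
      fun h => hab.2.2 (iso.injective h), (iso.dist_map a b).symm⟩
  have h2 := Set.ncard_le_ncard h1 (finite_dset P)
  rw [Set.ncard_coe_finset] at h2
  unfold nd
  exact h2

theorem final (h : EnrStmt) (hC : CseStmt) :
    ∀ K : ℝ, ∃ (ε c : ℝ) (A n₀ : ℕ), 0 < ε ∧ 0 < c ∧ ∀ P : Finset Pl, n₀ ≤ P.card →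
      ((P.card : ℝ) ^ 3 ≤ K * ((qset P).ncard : ℝ) ∨ ((sset P).ncard : ℝ) ≤ K * P.card) →
      ((dset P).ncard : ℝ) ≤ ε * P.card →
      ∃ L : AffineSubspace ℝ Pl, Module.finrank ℝ L.direction = 1 ∧
        c * Real.sqrt P.card / (Real.log P.card) ^ A ≤
          (((P : Set Pl) ∩ (L : Set Pl)).ncard : ℝ) := by
  classical
  intro K
  obtain ⟨ε, c, A, hε, hc, hA, n₀, H⟩ := h (max K 0)
  refine ⟨ε, c, ⌈A⌉₊, max 3 n₀, hε, hc, fun P hP hE hD => ?_⟩
  have h3 : 3 ≤ P.card := (le_max_left _ _).trans hP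
  have h3' : (3 : ℝ) ≤ P.card := by exact_mod_cast h3
  have h4 : n₀ ≤ (cp P).card := by
    rw [card_cp]
    exact (le_max_right _ _).trans hP
  have h5 : ((cp P).card : ℝ) ^ 3 ≤ max K 0 * eng (cp P) := by
    rcases hE with hE | hE
    · rw [card_cp]
      refine hE.trans ?_
      have h6 : ((qset P).ncard : ℝ) ≤ eng (cp P) := by exact_mod_cast qset_le P
      calc K * ((qset P).ncard : ℝ) ≤ max K 0 * ((qset P).ncard : ℝ) :=
            mul_le_mul_of_nonneg_right (le_max_left _ _) (Nat.cast_nonneg _)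
        _ ≤ max K 0 * eng (cp P) := mul_le_mul_of_nonneg_left h6 (le_max_right _ _)
    · refine hC (cp P) (max K 0) ?_
      have h6 : (sms (cp P) : ℝ) ≤ ((sset P).ncard : ℝ) := by exact_mod_cast sms_le P
      rw [card_cp]
      refine h6.trans (hE.trans ?_)
      exact mul_le_mul_of_nonneg_right (le_max_left _ _) (Nat.cast_nonneg _)
  have h7 : (nd (cp P) : ℝ) ≤ ε * (cp P).card := by
    rw [card_cp]
    refine le_trans ?_ hD
    exact_mod_cast nd_cp P
  obtain ⟨z₀, e, he, h8⟩ := H (cp P) h4 h5 h7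
  obtain ⟨L, hL, h9⟩ := line_of P e z₀ he
  refine ⟨L, hL, ?_⟩
  have hlog : (1 : ℝ) ≤ Real.log P.card := by
    rw [Real.le_log_iff_exp_le (by linarith)]
    linarith [Real.exp_one_lt_d9]
  have hpos : 0 < Real.log (P.card : ℝ) ^ ⌈A⌉₊ := pow_pos (by linarith) _
  rw [div_le_iff₀ hpos]
  rw [card_cp] at h8
  have h10 : ((cp P).filter fun p => ∃ t : ℝ, p = z₀ + t * e) =
      (cp P).filter fun q => ∃ r : ℝ, q - z₀ = r * e := by
    refine Finset.filter_congr fun q _ => exists_congr fun t => ?_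
    rw [sub_eq_iff_eq_add, add_comm]
  rw [h10] at h8
  refine h8.trans ?_
  rw [mul_comm]
  refine mul_le_mul h9 ?_ (by positivity) (Nat.cast_nonneg _)
  rw [← Real.rpow_natCast]
  exact Real.rpow_le_rpow_of_exponent_le hlog (Nat.le_ceil _)

end Pool.Agent.FRE.H61
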