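import Pool.Agent.FRE.Stmts
import Pool.Agent.PLX.Defs

set_option autoImplicit false

namespace Pool.Agent.FRE.H61

open Classical in
/-- the form of the theorem of squad PLX -/
def PfxStmt : Prop :=
  ∀ (d : ℕ) (K : ℝ), ∃ (ε c : ℝ) (A : ℕ), 0 < ε ∧ 0 < c ∧
    ∀ (N : Fin d → ℕ) (v : Fin d → ℂ) (P : Finset ℂ) (p₀ : ℂ), P.Nonempty →
      (∀ p ∈ P, ∃ x : Fin d → ℤ, (∀ i, |x i| ≤ N i) ∧ p = p₀ + ∑ i, (x i : ℂ) * v i) →
      (∏ i, (2 * (N i : ℝ) + 1)) ≤ K * P.card →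
      (Pool.Agent.PLX.nd P : ℝ) ≤ ε * P.card →
      ∃ z : ℂ, z ≠ 0 ∧ ∃ p ∈ P, c * Real.sqrt P.card ≤
        (Real.log P.card) ^ A * (P.filter (fun q => q - p ∈ Pool.Agent.PLX.lin z)).card

theorem nd_le (P : Finset ℂ) : Pool.Agent.PLX.nd P ≤ nd P + 1 := by
  classical
  unfold Pool.Agent.PLX.nd nd
  have h : ((P ×ˢ P).image fun p => ‖p.1 - p.2‖) ⊆
      insert 0 (P.offDiag.image fun p => dist p.1 p.2) := by
    intro r hr
    obtain ⟨⟨a, b⟩, hab, rfl⟩ := Finset.mem_image.1 hr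
    rw [Finset.mem_product] at hab
    by_cases h : a = b
    · subst h
      simp
    · refine Finset.mem_insert_of_mem (Finset.mem_image.2 ⟨(a, b), ?_, ?_⟩)
      · exact Finset.mem_offDiag.2 ⟨hab.1, hab.2, h⟩
      · exact dist_eq_norm _ _
  exact (Finset.card_le_card h).trans (Finset.card_insert_le _ _)

theorem gpl (h : PfxStmt) : GplStmt := by
  classical
  intro d K hK
  obtain ⟨ε, c, A, hε, hc, H⟩ := h d K
  refine ⟨ε / 2, c, (A : ℝ) + 1, by positivity, hc, by positivity, max 3 ⌈2 / ε⌉₊, ?_⟩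
  intro g N P h1 h2 h3 h4
  have h5 : 3 ≤ P.card := (le_max_left _ _).trans h2
  have h6 : (3 : ℝ) ≤ P.card := by exact_mod_cast h5
  have h7 : 2 / ε ≤ (P.card : ℝ) :=
    (Nat.le_ceil _).trans (by exact_mod_cast (le_max_right _ _).trans h2)
  have h8 : (1 : ℝ) ≤ ε / 2 * P.card := by
    rw [div_le_iff₀ hε] at h7
    linarith
  have hne : P.Nonempty := Finset.card_pos.1 (by omega)
  have h9 : (Pool.Agent.PLX.nd P : ℝ) ≤ ε * P.card := by
    have : (Pool.Agent.PLX.nd P : ℝ) ≤ (nd P : ℝ) + 1 := by exact_mod_cast nd_le P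
    linarith
  obtain ⟨z, hz, p, -, h10⟩ := H N g P 0 hne (fun q hq => by
    obtain ⟨x, hx, he⟩ := h1 q hq
    exact ⟨x, hx, by rw [zero_add]; exact he⟩) h3 h9
  refine ⟨p, z, hz, h10.trans ?_⟩
  have h11 : (1 : ℝ) ≤ Real.log P.card := by
    rw [Real.le_log_iff_exp_le (by linarith)]
    linarith [Real.exp_one_lt_d9]
  have h12 : (P.filter (fun q => q - p ∈ Pool.Agent.PLX.lin z)).card =
      (P.filter fun q => ∃ t : ℝ, q = p + t * z).card := by
    congr 1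
    ext q
    simp only [Finset.mem_filter, Pool.Agent.PLX.mem_lin]
    refine and_congr_right fun _ => exists_congr fun t => ?_
    rw [sub_eq_iff_eq_add, add_comm]
  rw [h12]
  refine mul_le_mul_of_nonneg_right ?_ (Nat.cast_nonneg _)
  rw [← Real.rpow_natCast]
  exact Real.rpow_le_rpow_of_exponent_le h11 (by linarith)

end Pool.Agent.FRE.H61
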