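import Pool.Agent.Helper61_FRE.CVG
import Pool.Agent.Helper61_FRE.GPL
import Pool.Agent.Helper61_FRE.Fin

/-!
MP_1fc801_co: the final theorems from `GpcStmt` (progressions), Freiman's theorem and
Balog-Szemeredi-Gowers.
-/

set_option autoImplicit false

namespace Pool.Agent.FRE.H61

open Pool.Agent.PLG.H67 (Pl iso cp mem_cp card_cp dset finite_dset)
open Pool.Agent.PLX (lin mem_lin)
open Pool.Agent.PLX.H61 (cl cl_pos CovU GpcStmt)

/-- representatives of the parallel lines -/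
theorem reps (P : Finset ℂ) (z : ℂ) :
    ∃ F ⊆ P, F.card ≤ cl P z ∧ ∀ p ∈ P, ∃ q ∈ F, p - q ∈ lin z := by
  classical
  have h1 : ∀ c : ℂ ⧸ lin z, ∃ q : ℂ,
      c ∈ (P.image fun q => (QuotientAddGroup.mk q : ℂ ⧸ lin z)) →
      q ∈ P ∧ (QuotientAddGroup.mk q : ℂ ⧸ lin z) = c := by
    intro c
    by_cases hc : c ∈ (P.image fun q => (QuotientAddGroup.mk q : ℂ ⧸ lin z))
    · obtain ⟨q, hq, rfl⟩ := Finset.mem_image.1 hc
      exact ⟨q, fun _ => ⟨hq, rfl⟩⟩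
    · exact ⟨0, fun h => absurd h hc⟩
  choose r hr using h1
  refine ⟨(P.image fun q => (QuotientAddGroup.mk q : ℂ ⧸ lin z)).image r, ?_, ?_, ?_⟩
  · intro q hq
    obtain ⟨c, hc, rfl⟩ := Finset.mem_image.1 hq
    exact (hr c hc).1
  · exact Finset.card_image_le
  · intro p hp
    have hc : (QuotientAddGroup.mk p : ℂ ⧸ lin z) ∈
        (P.image fun q => (QuotientAddGroup.mk q : ℂ ⧸ lin z)) :=
      Finset.mem_image.2 ⟨p, hp, rfl⟩
    refine ⟨r (QuotientAddGroup.mk p), Finset.mem_image.2 ⟨_, hc, rfl⟩, ?_⟩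
    have h2 := (hr _ hc).2
    rw [QuotientAddGroup.eq] at h2
    rw [sub_eq_neg_add]
    exact h2

/-- small doubling, in the complex plane -/
theorem dbl (hG : GpcStmt) (hF : FreStmt) : ∀ K : ℝ, ∃ (κ C : ℝ) (A : ℕ), 0 < κ ∧ 0 < C ∧
    ∀ P Q : Finset ℂ, P ⊆ Q → 2 ≤ P.card → (sms Q : ℝ) ≤ K * Q.card →
      (nd P : ℝ) * Q.card ≤ κ * (P.card : ℝ) ^ 2 →
      ∃ z : ℂ, z ≠ 0 ∧ (cl P z : ℝ) ≤ C * Real.sqrt Q.card * (Real.log P.card) ^ A := by
  classical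
  intro K
  obtain ⟨d, C₁, hC₁, H₁⟩ := hF K
  obtain ⟨κ, C₂, A, hκ, hC₂, H₂⟩ := hG d
  refine ⟨κ / (2 * C₁), C₂ * Real.sqrt C₁, A, by positivity, by positivity, ?_⟩
  intro P Q hPQ hP2 hQ hD
  have hPne : P.Nonempty := Finset.card_pos.1 (by omega)
  obtain ⟨g, N, h1, h2⟩ := H₁ Q (hPne.mono hPQ) hQ
  have hn0 : (0 : ℝ) ≤ ∏ i, (2 * (N i : ℝ) + 1) := Finset.prod_nonneg fun i _ => by positivity
  have hnd1 : (1 : ℝ) ≤ nd P := by
    obtain ⟨a, ha, b, hb, hab⟩ := Finset.one_lt_card.1 (by omega : 1 < P.card)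
    have : 0 < nd P := by
      unfold nd
      have hm : (a, b) ∈ P.offDiag := Finset.mem_offDiag.2 ⟨ha, hb, hab⟩
      exact Finset.card_pos.2 ⟨_, Finset.mem_image_of_mem _ hm⟩
    exact_mod_cast this
  have hnd : (Pool.Agent.PLX.nd P : ℝ) ≤ 2 * nd P := by
    have : (Pool.Agent.PLX.nd P : ℝ) ≤ (nd P : ℝ) + 1 := by exact_mod_cast nd_le P
    linarith
  have h3 : (∏ i, (2 * (N i : ℝ) + 1)) * Pool.Agent.PLX.nd P ≤ κ * (P.card : ℝ) ^ 2 := by
    calc (∏ i, (2 * (N i : ℝ) + 1)) * Pool.Agent.PLX.nd P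
        ≤ (C₁ * Q.card) * (2 * nd P) := mul_le_mul h2 hnd (Nat.cast_nonneg _) (by positivity)
      _ = 2 * C₁ * (nd P * Q.card) := by ring
      _ ≤ 2 * C₁ * (κ / (2 * C₁) * (P.card : ℝ) ^ 2) :=
          mul_le_mul_of_nonneg_left hD (by positivity)
      _ = κ * (P.card : ℝ) ^ 2 := by
          field_simp
  obtain ⟨z, hz, h4⟩ := H₂ N g P 0 hPne (fun p hp => by
    obtain ⟨x, hx, he⟩ := h1 p (hPQ hp)
    refine ⟨x, hx, ?_⟩
    rw [zero_add, he]
    exact Finset.sum_congr rfl fun i _ => by rw [zsmul_eq_mul]) h3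
  refine ⟨z, hz, h4.trans ?_⟩
  refine mul_le_mul_of_nonneg_right ?_ (pow_nonneg (Real.log_natCast_nonneg _) _)
  rw [mul_assoc, ← Real.sqrt_mul hC₁.le]
  exact mul_le_mul_of_nonneg_left (Real.sqrt_le_sqrt h2) hC₂.le

/-- from the number of parallel lines in the complex plane to the Euclidean plane -/
theorem toPl (P : Finset Pl) (P' : Finset ℂ) (hP : P' ⊆ cp P) (z : ℂ) (hz : z ≠ 0) :
    ∃ V : Submodule ℝ Pl, Module.finrank ℝ V = 1 ∧ ∃ R ⊆ P, R.card = P'.card ∧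
      ∃ F ⊆ R, F.card ≤ cl P' z ∧ ∀ p ∈ R, ∃ q ∈ F, p - q ∈ V := by
  classical
  refine ⟨Submodule.span ℝ {iso z}, finrank_span_singleton fun h => hz (iso.map_eq_zero_iff.1 h),
    P'.image iso, ?_, Finset.card_image_of_injective _ iso.injective, ?_⟩
  · intro p hp
    obtain ⟨q, hq, rfl⟩ := Finset.mem_image.1 hp
    exact mem_cp.1 (hP hq)
  · obtain ⟨F, h1, h2, h3⟩ := reps P' z
    refine ⟨F.image iso, Finset.image_subset_image h1,
      (Finset.card_image_le).trans h2, ?_⟩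
    intro p hp
    obtain ⟨p', hp', rfl⟩ := Finset.mem_image.1 hp
    obtain ⟨q, hq, r, hr⟩ := h3 p' hp'
    refine ⟨iso q, Finset.mem_image_of_mem _ hq, ?_⟩
    rw [← map_sub, hr, Submodule.mem_span_singleton]
    exact ⟨r, by rw [← map_smul, Complex.real_smul]⟩

/-- pigeonhole: a set covered by few parallel lines has a rich line -/
theorem rich_of_cover (R F : Finset Pl) (V : Submodule ℝ Pl) (hV : Module.finrank ℝ V = 1)
    (hR : R.Nonempty) (hF : ∀ p ∈ R, ∃ q ∈ F, p - q ∈ V) :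
    ∃ L : AffineSubspace ℝ Pl, L.direction = V ∧
      (R.card : ℝ) ≤ F.card * (((R : Set Pl) ∩ (L : Set Pl)).ncard : ℝ) := by
  classical
  have h1 : ∀ p : Pl, ∃ q : Pl, p ∈ R → q ∈ F ∧ p - q ∈ V := by
    intro p
    by_cases hp : p ∈ R
    · obtain ⟨q, hq, h⟩ := hF p hp
      exact ⟨q, fun _ => ⟨hq, h⟩⟩
    · exact ⟨0, fun h => absurd h hp⟩
  choose f hf using h1
  have hne : (R.image f).Nonempty := hR.image f
  obtain ⟨q, hq, hmax⟩ := Finset.exists_max_image (R.image f)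
    (fun q => (R.filter fun p => f p = q).card) hne
  refine ⟨AffineSubspace.mk' q V, AffineSubspace.direction_mk' _ _, ?_⟩
  have h2 : R.card ≤ (R.image f).card * (R.filter fun p => f p = q).card := by
    rw [mul_comm]
    exact Finset.card_le_mul_card_image R _ fun b hb => hmax b hb
  have h3 : (R.image f).card ≤ F.card := Finset.card_le_card fun x hx => by
    obtain ⟨p, hp, rfl⟩ := Finset.mem_image.1 hx
    exact (hf p hp).1
  have h4 : (R.filter fun p => f p = q).card ≤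
      ((R : Set Pl) ∩ (AffineSubspace.mk' q V : Set Pl)).ncard := by
    rw [← Set.ncard_coe_finset]
    refine Set.ncard_le_ncard ?_ (R.finite_toSet.subset Set.inter_subset_left)
    intro p hp
    rw [Finset.mem_coe, Finset.mem_filter] at hp
    refine ⟨hp.1, ?_⟩
    have h5 := (hf p hp.1).2
    rw [hp.2] at h5
    exact (AffineSubspace.mem_mk').2 h5
  have h6 : R.card ≤ F.card * ((R : Set Pl) ∩ (AffineSubspace.mk' q V : Set Pl)).ncard :=
    h2.trans (Nat.mul_le_mul h3 h4)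
  exact_mod_cast h6

/-- FINAL THEOREM, small doubling -/
theorem small_doubling (hG : GpcStmt) (hF : FreStmt) :
    ∀ K : ℝ, ∃ (κ C : ℝ) (A : ℕ), 0 < κ ∧ 0 < C ∧ ∀ P Q : Finset Pl, P ⊆ Q → 2 ≤ P.card →
      ((sset Q).ncard : ℝ) ≤ K * Q.card →
      ((dset P).ncard : ℝ) * Q.card ≤ κ * (P.card : ℝ) ^ 2 →
      ∃ V : Submodule ℝ Pl, Module.finrank ℝ V = 1 ∧ ∃ F ⊆ P,
        (F.card : ℝ) ≤ C * Real.sqrt Q.card * (Real.log P.card) ^ A ∧
        ∀ p ∈ P, ∃ q ∈ F, p - q ∈ V := by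
  classical
  intro K
  obtain ⟨κ, C, A, hκ, hC, H⟩ := dbl hG hF K
  refine ⟨κ, C, A, hκ, hC, fun P Q hPQ hP hK hD => ?_⟩
  have hsub : cp P ⊆ cp Q := fun x hx => mem_cp.2 (hPQ (mem_cp.1 hx))
  obtain ⟨z, hz, h1⟩ := H (cp P) (cp Q) hsub (by rwa [card_cp]) (by
      rw [card_cp]
      exact le_trans (by exact_mod_cast sms_le Q) hK) (by
      rw [card_cp, card_cp]
      refine le_trans ?_ hD
      exact mul_le_mul_of_nonneg_right (by exact_mod_cast nd_cp P) (Nat.cast_nonneg _))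
  obtain ⟨V, hV, R, hR, hRc, F, hF1, hF2, hF3⟩ := toPl P (cp P) subset_rfl z hz
  have hRP : R = P := Finset.eq_of_subset_of_card_le hR (by rw [hRc, card_cp])
  subst hRP
  rw [card_cp, card_cp] at h1
  exact ⟨V, hV, F, hF1, le_trans (by exact_mod_cast hF2) h1, hF3⟩

/-- FINAL THEOREM, large additive energy -/
theorem large_energy (hG : GpcStmt) (hF : FreStmt) (hB : BsgStmt) :
    ∀ K : ℝ, ∃ (ε c C : ℝ) (A : ℕ), 0 < ε ∧ 0 < c ∧ 0 < C ∧ ∀ P : Finset Pl, 2 ≤ P.card →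
      (P.card : ℝ) ^ 3 ≤ K * ((qset P).ncard : ℝ) →
      ((dset P).ncard : ℝ) ≤ ε * P.card →
      ∃ V : Submodule ℝ Pl, Module.finrank ℝ V = 1 ∧ ∃ R ⊆ P, c * P.card ≤ R.card ∧
        ∃ F ⊆ R, (F.card : ℝ) ≤ C * Real.sqrt P.card * (Real.log P.card) ^ A ∧
          ∀ p ∈ R, ∃ q ∈ F, p - q ∈ V := by
  classical
  intro K
  obtain ⟨K', hK', H₁⟩ := hB (max K 0)
  obtain ⟨κ, C, A, hκ, hC, H₂⟩ := dbl hG hF K'
  refine ⟨min (κ / (K' + 1)) (1 / (4 * (K' + 1))), 1 / K', C, A, by positivity, by positivity, hC,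
    fun P hP hE hD => ?_⟩
  have hPc : (2 : ℝ) ≤ P.card := by exact_mod_cast hP
  have hPne : (cp P).Nonempty := by
    rw [← Finset.card_pos, card_cp]
    omega
  have h1 : ((cp P).card : ℝ) ^ 3 ≤ max K 0 * eng (cp P) := by
    rw [card_cp]
    refine hE.trans ?_
    have h6 : ((qset P).ncard : ℝ) ≤ eng (cp P) := by exact_mod_cast qset_le P
    calc K * ((qset P).ncard : ℝ) ≤ max K 0 * ((qset P).ncard : ℝ) :=
          mul_le_mul_of_nonneg_right (le_max_left _ _) (Nat.cast_nonneg _)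
      _ ≤ max K 0 * eng (cp P) := mul_le_mul_of_nonneg_left h6 (le_max_right _ _)
  obtain ⟨P', hP', h2, h3⟩ := H₁ (cp P) hPne h1
  rw [card_cp] at h2
  -- `P'` has at least two points: the number of distances is at least one
  have hnd1 : (1 : ℝ) ≤ nd (cp P) := by
    obtain ⟨a, ha, b, hb, hab⟩ := Finset.one_lt_card.1 (by rw [card_cp]; omega :
      1 < (cp P).card)
    have : 0 < nd (cp P) := by
      unfold nd
      have hm : (a, b) ∈ (cp P).offDiag := Finset.mem_offDiag.2 ⟨ha, hb, hab⟩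
      exact Finset.card_pos.2 ⟨_, Finset.mem_image_of_mem _ hm⟩
    exact_mod_cast this
  have hndD : (nd (cp P) : ℝ) ≤ (dset P).ncard := by exact_mod_cast nd_cp P
  have hP4 : 4 * (K' + 1) ≤ P.card := by
    have h4 : (1 : ℝ) ≤ 1 / (4 * (K' + 1)) * P.card :=
      hnd1.trans (hndD.trans (hD.trans (mul_le_mul_of_nonneg_right (min_le_right _ _)
        (Nat.cast_nonneg _))))
    rw [div_mul_eq_mul_div, one_mul, le_div_iff₀ (by positivity)] at h4
    linarith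
  have hP'2 : 2 ≤ P'.card := by
    by_contra hcon
    have h5 : (P'.card : ℝ) ≤ 1 := by exact_mod_cast (by omega : P'.card ≤ 1)
    have h6 : K' * (P'.card : ℝ) ≤ K' * 1 := mul_le_mul_of_nonneg_left h5 hK'.le
    linarith
  have hP'0 : (0 : ℝ) < P'.card := by exact_mod_cast (by omega : 0 < P'.card)
  have hle : (P'.card : ℝ) ≤ P.card := by
    have := Finset.card_le_card hP'
    rw [card_cp] at this
    exact_mod_cast this
  have h7 : (nd P' : ℝ) * P'.card ≤ κ * (P'.card : ℝ) ^ 2 := by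
    have h8 : nd P' ≤ nd (cp P) := by
      unfold nd
      refine Finset.card_le_card (Finset.image_subset_image ?_)
      exact Finset.offDiag_mono hP'
    have h9 : (nd P' : ℝ) ≤ κ / (K' + 1) * P.card :=
      le_trans (by exact_mod_cast h8) (hndD.trans (hD.trans
        (mul_le_mul_of_nonneg_right (min_le_left _ _) (Nat.cast_nonneg _))))
    have h10 : κ / (K' + 1) * P.card ≤ κ * P'.card := by
      rw [div_mul_eq_mul_div, div_le_iff₀ (by positivity)]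
      calc κ * (P.card : ℝ) ≤ κ * (K' * P'.card) := mul_le_mul_of_nonneg_left h2 hκ.le
        _ ≤ κ * P'.card * (K' + 1) := by nlinarith [mul_pos hκ hP'0]
    calc (nd P' : ℝ) * P'.card ≤ (κ * P'.card) * P'.card :=
          mul_le_mul_of_nonneg_right (h9.trans h10) hP'0.le
      _ = κ * (P'.card : ℝ) ^ 2 := by ring
  obtain ⟨z, hz, h11⟩ := H₂ P' P' subset_rfl hP'2 h3 h7
  obtain ⟨V, hV, R, hR, hRc, F, hF1, hF2, hF3⟩ := toPl P P' hP' z hz
  refine ⟨V, hV, R, hR, ?_, F, hF1, ?_, hF3⟩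
  · rw [hRc, div_mul_eq_mul_div, one_mul, div_le_iff₀ hK']
    linarith
  · refine le_trans (le_trans (by exact_mod_cast hF2) h11) ?_
    have hl : Real.log P'.card ≤ Real.log P.card := Real.log_le_log hP'0 hle
    have hl0 : 0 ≤ Real.log (P'.card : ℝ) := Real.log_natCast_nonneg _
    refine mul_le_mul ?_ (pow_le_pow_left₀ hl0 hl A) (pow_nonneg hl0 A) (by positivity)
    exact mul_le_mul_of_nonneg_left (Real.sqrt_le_sqrt hle) hC.le

/-- FINAL THEOREM (B), with the explicit sets and the rich line -/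
theorem final_doubling (hG : GpcStmt) (hF : FreStmt) :
    ∀ K : ℝ, ∃ (κ C : ℝ) (A : ℕ), 0 < κ ∧ 0 < C ∧
      ∀ P Q : Finset (EuclideanSpace ℝ (Fin 2)), P ⊆ Q → 2 ≤ P.card →
      ({s : EuclideanSpace ℝ (Fin 2) | ∃ p ∈ Q, ∃ q ∈ Q, s = p + q}.ncard : ℝ) ≤ K * Q.card →
      ({r : ℝ | ∃ p ∈ P, ∃ q ∈ P, p ≠ q ∧ r = dist p q}.ncard : ℝ) * Q.card ≤
        κ * (P.card : ℝ) ^ 2 →
      ∃ V : Submodule ℝ (EuclideanSpace ℝ (Fin 2)), Module.finrank ℝ V = 1 ∧
        (∃ F ⊆ P, (F.card : ℝ) ≤ C * Real.sqrt Q.card * (Real.log P.card) ^ A ∧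
          ∀ p ∈ P, ∃ q ∈ F, p - q ∈ V) ∧
        ∃ L : AffineSubspace ℝ (EuclideanSpace ℝ (Fin 2)), L.direction = V ∧
          (P.card : ℝ) / (C * Real.sqrt Q.card * (Real.log P.card) ^ A) ≤
            (((P : Set (EuclideanSpace ℝ (Fin 2))) ∩
              (L : Set (EuclideanSpace ℝ (Fin 2)))).ncard : ℝ) := by
  intro K
  obtain ⟨κ, C, A, hκ, hC, H⟩ := small_doubling hG hF K
  refine ⟨κ, C, A, hκ, hC, fun P Q hPQ hP hK hD => ?_⟩
  obtain ⟨V, hV, F, hF1, hF2, hF3⟩ := H P Q hPQ hP hK hD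
  have hPne : P.Nonempty := Finset.card_pos.1 (by omega)
  obtain ⟨L, hL, h1⟩ := rich_of_cover P F V hV hPne hF3
  refine ⟨V, hV, ⟨F, hF1, hF2, hF3⟩, L, hL, ?_⟩
  have hP2 : (2 : ℝ) ≤ P.card := by exact_mod_cast hP
  have hQ : (0 : ℝ) < Q.card := by exact_mod_cast (hPne.mono hPQ).card_pos
  have hlog : 0 < Real.log (P.card : ℝ) := Real.log_pos (by linarith)
  rw [div_le_iff₀ (mul_pos (mul_pos hC (Real.sqrt_pos.2 hQ)) (pow_pos hlog A)), mul_comm]
  exact h1.trans (mul_le_mul_of_nonneg_right hF2 (Nat.cast_nonneg _))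

/-- FINAL THEOREM (A), with the explicit sets and the rich line -/
theorem final_energy (hG : GpcStmt) (hF : FreStmt) (hB : BsgStmt) :
    ∀ K : ℝ, ∃ (ε c C : ℝ) (A : ℕ), 0 < ε ∧ 0 < c ∧ 0 < C ∧
      ∀ P : Finset (EuclideanSpace ℝ (Fin 2)), 2 ≤ P.card →
      (P.card : ℝ) ^ 3 ≤ K * ({q : EuclideanSpace ℝ (Fin 2) × EuclideanSpace ℝ (Fin 2) ×
        EuclideanSpace ℝ (Fin 2) × EuclideanSpace ℝ (Fin 2) | q.1 ∈ P ∧ q.2.1 ∈ P ∧ q.2.2.1 ∈ P ∧
          q.2.2.2 ∈ P ∧ q.1 + q.2.1 = q.2.2.1 + q.2.2.2}.ncard : ℝ) →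
      ({r : ℝ | ∃ p ∈ P, ∃ q ∈ P, p ≠ q ∧ r = dist p q}.ncard : ℝ) ≤ ε * P.card →
      ∃ V : Submodule ℝ (EuclideanSpace ℝ (Fin 2)), Module.finrank ℝ V = 1 ∧
        (∃ R ⊆ P, c * P.card ≤ R.card ∧
          ∃ F ⊆ R, (F.card : ℝ) ≤ C * Real.sqrt P.card * (Real.log P.card) ^ A ∧
            ∀ p ∈ R, ∃ q ∈ F, p - q ∈ V) ∧
        ∃ L : AffineSubspace ℝ (EuclideanSpace ℝ (Fin 2)), L.direction = V ∧
          c * Real.sqrt P.card / (C * (Real.log P.card) ^ A) ≤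
            (((P : Set (EuclideanSpace ℝ (Fin 2))) ∩
              (L : Set (EuclideanSpace ℝ (Fin 2)))).ncard : ℝ) := by
  intro K
  obtain ⟨ε, c, C, A, hε, hc, hC, H⟩ := large_energy hG hF hB K
  refine ⟨ε, c, C, A, hε, hc, hC, fun P hP hK hD => ?_⟩
  obtain ⟨V, hV, R, hR, hRc, F, hF1, hF2, hF3⟩ := H P hP hK hD
  have hP2 : (2 : ℝ) ≤ P.card := by exact_mod_cast hP
  have hRne : R.Nonempty := by
    rw [← Finset.card_pos]
    have : (0 : ℝ) < R.card := lt_of_lt_of_le (mul_pos hc (by linarith)) hRc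
    exact_mod_cast this
  obtain ⟨L, hL, h1⟩ := rich_of_cover R F V hV hRne hF3
  refine ⟨V, hV, ⟨R, hR, hRc, F, hF1, hF2, hF3⟩, L, hL, ?_⟩
  have hlog : 0 < Real.log (P.card : ℝ) := Real.log_pos (by linarith)
  have hs : 0 < Real.sqrt P.card := Real.sqrt_pos.2 (by linarith)
  have h2 : (((R : Set Pl) ∩ (L : Set Pl)).ncard : ℝ) ≤
      (((P : Set Pl) ∩ (L : Set Pl)).ncard : ℝ) := by
    have h3 : ((R : Set Pl) ∩ (L : Set Pl)).ncard ≤ ((P : Set Pl) ∩ (L : Set Pl)).ncard :=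
      Set.ncard_le_ncard (Set.inter_subset_inter_left _ (Finset.coe_subset.2 hR))
        (P.finite_toSet.subset Set.inter_subset_left)
    exact_mod_cast h3
  rw [div_le_iff₀ (mul_pos hC (pow_pos hlog A))]
  have h4 : (c * Real.sqrt P.card) * Real.sqrt P.card ≤
      ((((P : Set Pl) ∩ (L : Set Pl)).ncard : ℝ) * (C * (Real.log P.card) ^ A)) *
        Real.sqrt P.card := by
    calc (c * Real.sqrt P.card) * Real.sqrt P.card
        = c * P.card := by rw [mul_assoc, Real.mul_self_sqrt (by linarith)]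
      _ ≤ R.card := hRc
      _ ≤ F.card * (((R : Set Pl) ∩ (L : Set Pl)).ncard : ℝ) := h1
      _ ≤ (C * Real.sqrt P.card * (Real.log P.card) ^ A) *
          (((P : Set Pl) ∩ (L : Set Pl)).ncard : ℝ) :=
          mul_le_mul hF2 h2 (Nat.cast_nonneg _) (by positivity)
      _ = _ := by ring
  exact le_of_mul_le_mul_right h4 hs

end Pool.Agent.FRE.H61
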