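import Pool.Agent.Helper61_FRE.Str
import Pool.Agent.Helper61_FRE.Top
import Pool.Agent.FRE.Asm
import Pool.Agent.Helper53_PLX.BCK
import Pool.Agent.Helper67_PLX.TRA
import Pool.Agent.Helper61_FRE.PRO

/-!
MP_1fc801_co: assembly of the final theorems.
-/

set_option autoImplicit false

namespace Pool.Agent.PLX.H61

theorem str_all : StrStmt := str Pool.Agent.PLX.H67.tra pro Pool.Agent.PLX.H53.bck

theorem mc1_all : Mc1Stmt :=
  mu1c cov slp str_all Pool.Agent.PLX.H2.eng Pool.Agent.PLX.H92.prp Pool.Agent.PLX.H53.cls lad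

theorem gpc_all : GpcStmt := gpc (mc2 mc1_all Pool.Agent.PLX.H53.rot)

end Pool.Agent.PLX.H61
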