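import Pool.Agent.Helper61_FRE.CVU
import Pool.Agent.Helper53_PLX.MU2

/-!
MP_1fc801_co: covering by parallel lines, rotation of the coordinates and progressions (after
Helper53_PLX/MU2.lean).
-/

set_option autoImplicit false

namespace Pool.Agent.PLX.H61

open Module

theorem mem_lin_mul {ω z x : ℂ} (hω : ω ≠ 0) : x ∈ lin (ω⁻¹ * z) ↔ ω * x ∈ lin z := by
  rw [mem_lin, mem_lin]
  constructor
  · rintro ⟨r, hr⟩
    refine ⟨r, ?_⟩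
    rw [hr]
    field_simp
  · rintro ⟨r, hr⟩
    refine ⟨r, ?_⟩
    have h : x = ω⁻¹ * (ω * x) := by field_simp
    rw [h, hr]
    ring

theorem cl_rot {P P' : Finset ℂ} {ω z : ℂ} (hω : ω ≠ 0) (h : ∀ q ∈ P, ω * q ∈ P') :
    cl P (ω⁻¹ * z) ≤ cl P' z := by
  classical
  unfold cl
  refine Finset.card_le_card_of_injOn
    (fun c : ℂ ⧸ lin (ω⁻¹ * z) => (QuotientAddGroup.mk (ω * c.out) : ℂ ⧸ lin z)) ?_ ?_
  · intro c hc
    obtain ⟨q, hq, rfl⟩ := Finset.mem_image.1 (Finset.mem_coe.1 hc)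
    refine Finset.mem_coe.2 (Finset.mem_image.2 ⟨ω * q, h q hq, ?_⟩)
    rw [QuotientAddGroup.eq]
    have h1 : (QuotientAddGroup.mk ((QuotientAddGroup.mk q : ℂ ⧸ lin (ω⁻¹ * z)).out) :
        ℂ ⧸ lin (ω⁻¹ * z)) = QuotientAddGroup.mk q := QuotientAddGroup.out_eq' _
    rw [eq_comm, QuotientAddGroup.eq, mem_lin_mul hω] at h1
    have h2 : -(ω * q) + ω * (QuotientAddGroup.mk q : ℂ ⧸ lin (ω⁻¹ * z)).out =
        ω * (-q + (QuotientAddGroup.mk q : ℂ ⧸ lin (ω⁻¹ * z)).out) := by ring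
    rw [h2]
    exact h1
  · intro c _ c' _ heq
    simp only at heq
    rw [QuotientAddGroup.eq] at heq
    have h2 : -(ω * c.out) + ω * c'.out = ω * (-c.out + c'.out) := by ring
    rw [h2, ← mem_lin_mul hω] at heq
    rw [← QuotientAddGroup.out_eq' c, ← QuotientAddGroup.out_eq' c', QuotientAddGroup.eq]
    exact heq

def Mc2Stmt : Prop :=
  ∀ d : ℕ, ∃ (κ C : ℝ) (a : ℕ), 0 < κ ∧ 0 < C ∧
    ∀ (A : Type) [AddCommGroup A] [Module ℚ A] (E : Type) [NormedAddCommGroup E]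
      [NormedSpace ℝ E] (Φ : A →+ ℂ) (f : A →+ E) (G : AddSubgroup A) (P : Finset ℂ) (p₀ : ℂ),
      Dsc f G → FiniteDimensional ℚ (sp G) → finrank ℚ (sp G) ≤ d → P.Nonempty →
      (∀ p ∈ P, ∃ x ∈ G, ‖f x‖ ≤ 1 ∧ Φ x = p - p₀) →
      (cnt f G 1 : ℝ) * nd P ≤ κ * (P.card : ℝ) ^ 2 → CovU P (cnt f G 1) C a

def GpcStmt : Prop :=
  ∀ d : ℕ, ∃ (κ C : ℝ) (a : ℕ), 0 < κ ∧ 0 < C ∧
    ∀ (N : Fin d → ℕ) (g : Fin d → ℂ) (P : Finset ℂ) (p₀ : ℂ), P.Nonempty →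
      (∀ p ∈ P, ∃ x : Fin d → ℤ, (∀ i, |x i| ≤ N i) ∧ p = p₀ + ∑ i, (x i : ℂ) * g i) →
      (∏ i, (2 * (N i : ℝ) + 1)) * nd P ≤ κ * (P.card : ℝ) ^ 2 →
      CovU P (∏ i, (2 * (N i : ℝ) + 1)) C a

theorem mc2 (h1 : Mc1Stmt) (h2 : RotStmt) : Mc2Stmt := by
  classical
  intro d
  obtain ⟨κ, c, a, hκ, hc, H⟩ := h1 d
  refine ⟨κ, c, a, hκ, hc, ?_⟩
  intro A _ _ E _ _ Φ f G P p₀ hD hfin hrk hP hPb hcnt
  obtain ⟨ω, hω, hrot⟩ := h2 ((bl f G 4).image Φ)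
  have hω0 : ω ≠ 0 := by
    rintro rfl
    simp at hω
  have hΦ' : ∀ x, ((AddMonoidHom.mulLeft ω).comp Φ) x = ω * Φ x := fun x => rfl
  have hinj : Function.Injective fun x : ℂ => ω * x := mul_right_injective₀ hω0
  have hcP : (P.map ⟨fun x => ω * x, hinj⟩).card = P.card := Finset.card_map _
  have hnd' : nd (P.map ⟨fun x => ω * x, hinj⟩) = nd P := by
    unfold nd
    congr 1
    ext r
    simp only [Finset.mem_image, Finset.mem_product, Finset.mem_map, Function.Embedding.coeFn_mk,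
      Prod.exists]
    have hdist : ∀ a b : ℂ, ‖ω * a - ω * b‖ = ‖a - b‖ := by
      intro a b
      rw [← mul_sub, norm_mul, hω, one_mul]
    constructor
    · rintro ⟨_, _, ⟨⟨a, ha, rfl⟩, ⟨b, hb, rfl⟩⟩, rfl⟩
      exact ⟨a, b, ⟨ha, hb⟩, (hdist a b).symm⟩
    · rintro ⟨a, b, ⟨ha, hb⟩, rfl⟩
      exact ⟨ω * a, ω * b, ⟨⟨a, ha, rfl⟩, ⟨b, hb, rfl⟩⟩, hdist a b⟩
  have hR := H A E ((AddMonoidHom.mulLeft ω).comp Φ) f G
    (P.map ⟨fun x => ω * x, hinj⟩) (ω * p₀) hD hfin hrk ?_ ?_ ?_ ?_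
  · obtain ⟨z, hz, hle⟩ := hR
    refine ⟨ω⁻¹ * z, mul_ne_zero (inv_ne_zero hω0) hz, ?_⟩
    rw [hcP] at hle
    refine le_trans ?_ hle
    exact_mod_cast cl_rot hω0 fun q hq => Finset.mem_map.2 ⟨q, hq, rfl⟩
  · intro x hx hx4 h0
    rw [hΦ'] at h0 ⊢
    by_contra hne
    refine hrot (Φ x) (Finset.mem_image_of_mem Φ ((mem_bl hD).2 ⟨hx, hx4⟩)) ?_ h0
    intro h3
    exact hne (by rw [h3, mul_zero])
  · exact hP.map
  · intro p' hp'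
    obtain ⟨p, hp, rfl⟩ := Finset.mem_map.1 hp'
    obtain ⟨x, hx, hx1, hxp⟩ := hPb p hp
    refine ⟨x, hx, hx1, ?_⟩
    rw [hΦ', hxp]
    exact mul_sub _ _ _
  · rw [hnd', hcP]
    exact hcnt

open Pool.Agent.PLX.H94 in
theorem gpc (mu2 : Mc2Stmt) : GpcStmt := by
  intro d
  obtain ⟨κ, c, a, hκ, hc, H⟩ := mu2 d
  refine ⟨κ, c, a, hκ, hc, ?_⟩
  intro N g P p₀ hP hx hcard
  have hcnt : (cnt (fm N) (iv (d := d)).range 1 : ℝ) = ∏ i, (2 * (N i : ℝ) + 1) := by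
    rw [cnt_fm]
    push_cast
    rfl
  have h := H (Fin d → ℚ) (Fin d → ℝ) (ph g) (fm N) (iv (d := d)).range P p₀ (dsc_fm N)
    inferInstance ?_ hP ?_ ?_
  · rw [hcnt] at h
    exact h
  · refine (Submodule.finrank_le _).trans (le_of_eq ?_)
    rw [Module.finrank_fin_fun]
  · intro p hp
    obtain ⟨x, h1, h2⟩ := hx p hp
    refine ⟨iv x, ⟨x, rfl⟩, (norm_iv N x zero_le_one).2 fun i =>
      (wt_le_one N i (x i)).2 (h1 i), ?_⟩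
    rw [h2, add_sub_cancel_left]
    show ∑ i, ((((x i : ℤ) : ℚ)) : ℂ) * g i = ∑ i, (x i : ℂ) * g i
    refine Finset.sum_congr rfl fun i _ => ?_
    rw [Rat.cast_intCast]
  · rw [hcnt]
    exact hcard

end Pool.Agent.PLX.H61
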