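import Pool.Agent.Helper67_PLX.PKV
import Pool.Agent.Helper74_PLX.COV
import Pool.Agent.Helper23_PLX.SEP
import Pool.Agent.Helper75_PLX.RNK
import Pool.Agent.Helper46_PLX.GRU
import Pool.Agent.Helper67_PLX.SOL
import Pool.Agent.Helper7_PLX.SLC
import Pool.Agent.Helper77_PLX.EXS
import Pool.Agent.Helper74_PLX.LMS
import Pool.Agent.Helper26_PLX.MUL
import Pool.Agent.Helper86_PLX.WRD
import Pool.Agent.Helper53_PLX.COP
import Pool.Agent.Helper60_PLX.FIF
import Pool.Agent.Helper70_PLX.POL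
import Pool.Agent.Helper13_PLX.LIB
import Pool.Agent.Helper10_PLX.LIO
import Pool.Agent.Helper42_PLX.KIL
import Pool.Agent.Helper36_PLX.FLD
import Pool.Agent.Helper94_PLX.FUN
import Pool.Agent.Helper16_PLX.BC2
import Pool.Agent.Helper14_PLX.PSI
import Pool.Agent.Helper67_PLX.PRF
import Pool.Agent.Helper13_PLX.PRC
import Pool.Agent.Helper59_PLX.BC1
import Pool.Agent.Helper14_PLX.MIK
import Pool.Agent.Helper81_PLX.BLF
import Pool.Agent.Helper36_PLX.DMN
import Pool.Agent.Helper66_PLX.DPL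
import Pool.Agent.Helper39_PLX.FNL
import Pool.Agent.Helper81_PLX.TPL
import Pool.Agent.Helper19_PLX.CS1
import Pool.Agent.Helper38_PLX.BKS
import Pool.Agent.Helper32_PLX.THS
import Pool.Agent.Helper2_PLX.THK
import Pool.Agent.Helper7_PLX.TKG
import Pool.Agent.Helper16_PLX.THN
import Pool.Agent.Helper39_PLX.STR
import Pool.Agent.Helper2_PLX.ENG
import Pool.Agent.Helper92_PLX.PRP
import Pool.Agent.Helper32_PLX.SLP
import Pool.Agent.Helper19_PLX.PRX
import Pool.Agent.Helper30_PLX.LAD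

/-!
MP_1fc801_co: assembly of the structure theorem (squad PLX); the rows TRA, PRO, BCK are
hypotheses here.
-/

set_option autoImplicit false

namespace Pool.Agent.PLX.H61

theorem cov : CovStmt := Pool.Agent.PLX.H74.cov Pool.Agent.PLX.H67.pkv
theorem sep : SepStmt := Pool.Agent.PLX.H23.sep Pool.Agent.PLX.H67.pkv
theorem gru : GruStmt := Pool.Agent.PLX.H46.gru Pool.Agent.PLX.H75.rnk
theorem slc : SlcStmt := Pool.Agent.PLX.H7.slc Pool.Agent.PLX.H67.sol
theorem slp : SlpStmt := Pool.Agent.PLX.H32.slp Pool.Agent.PLX.H67.sol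
theorem pol : PolStmt := Pool.Agent.PLX.H70.pol sep
theorem lad : LadStmt := Pool.Agent.PLX.H30.lad cov Pool.Agent.PLX.H19.prx

theorem bc2 : Bc2Stmt :=
  Pool.Agent.PLX.H16.bc2 Pool.Agent.PLX.H53.gen Pool.Agent.PLX.H60.fif
    (Pool.Agent.PLX.H10.lio Pool.Agent.PLX.H13.lib) Pool.Agent.PLX.H42.kil
    (Pool.Agent.PLX.H36.fld Pool.Agent.PLX.H53.gen) Pool.Agent.PLX.H94.fun'

theorem bc1 (tra : TraStmt) : Bc1Stmt :=
  Pool.Agent.PLX.H59.bc1 Pool.Agent.PLX.H74.lms (Pool.Agent.PLX.H26.mul tra)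
    Pool.Agent.PLX.H86.wrd pol

theorem str (tra : TraStmt) (pro : TraStmt → PsiStmt → PrfStmt → PrcStmt → ProStmt)
    (bck : SepStmt → ExsStmt → Bc1Stmt → ProStmt → Bc2Stmt → BckStmt) : StrStmt := by
  have hpro := pro tra Pool.Agent.PLX.H14.psi Pool.Agent.PLX.H67.prf
    (Pool.Agent.PLX.H13.prc Pool.Agent.PLX.H67.sol)
  have hbck := bck sep Pool.Agent.PLX.H77.exs (bc1 tra) hpro bc2
  have hmik := Pool.Agent.PLX.H14.mik Pool.Agent.PLX.H67.pkv gru
  have hfnl := Pool.Agent.PLX.H39.fnl Pool.Agent.PLX.H67.pkv gru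
  have htpl := Pool.Agent.PLX.H81.tpl Pool.Agent.PLX.H53.rts hfnl
  have hbks := Pool.Agent.PLX.H38.bks cov hmik Pool.Agent.PLX.H81.blf hbck htpl
    Pool.Agent.PLX.H19.cs1
  have hths := Pool.Agent.PLX.H32.ths cov (Pool.Agent.PLX.H36.dmn cov slc gru)
    (Pool.Agent.PLX.H66D.dpl cov slc gru) hbks
  exact Pool.Agent.PLX.H39.str (Pool.Agent.PLX.H2.thk hths) Pool.Agent.PLX.H7.tkg
    (Pool.Agent.PLX.H16.thn cov)

end Pool.Agent.PLX.H61
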